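import Mathlib
import Pool.Agent.D0H30.OPN.Main

set_option autoImplicit false

/-!
# The primes of an odd perfect number which are not `1` modulo the odd primes dividing `τ(N)`

Call a prime factor `q` of the odd perfect number `N` *free* if `q` is not congruent to `1` modulo any
odd prime dividing the number `τ(N)` of divisors of `N` (for instance, every Fermat prime is free).
Let `F` be the product of the components `q ^ v_q(N)` of `N` over all free primes `q`, and let `π` be
the Euler prime of `N`.  Then `4 F` divides `(π + 1) τ(N)`; this gives `F = O(N ^ (1/3 + ε))`, and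
`F = O_B(N ^ (1/3 - c/B))` if all exponents of `N` are at most `B`.
-/

namespace Pool.Agent.Results.MP_f02ea4_nt.FreePart

/-- The natural number `q` is free with respect to `N`: it is not congruent to `1` modulo any odd
prime `r` dividing the number of divisors of `N`. -/
def Free (N q : ℕ) : Prop :=
  ∀ r : ℕ, r.Prime → r ≠ 2 → r ∣ N.divisors.card → ¬ q ≡ 1 [MOD r]

open Classical in
/-- The free part of `N`: the product of `q ^ v_q(N)` over the free prime factors `q` of `N`. -/
noncomputable def freePart (N : ℕ) : ℕ :=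
  ∏ q ∈ N.primeFactors with Free N q, q ^ N.factorization q

/-- The prime `p` is the Euler prime of `N`: `p` is a prime factor of `N` with `p` and `v_p(N)`
congruent to `1` modulo `4`, and the exponents of all other prime factors are even. -/
def IsEulerPrime (N p : ℕ) : Prop :=
  p ∈ N.primeFactors ∧ p % 4 = 1 ∧ N.factorization p % 4 = 1 ∧
    ∀ q ∈ N.primeFactors, q ≠ p → Even (N.factorization q)

/-- **Main theorem.**
(1) Every odd perfect number `N` has an Euler prime `p`, and `4 * freePart N` divides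
`(p + 1) * τ(N)`; if `p` is free itself, then `p ^ v_p(N)` divides `τ(N)` (so that
`freePart N ≤ τ(N) ^ 2`); in all cases `4 * freePart N ^ 3 ≤ N * τ(N) ^ 3`.
(2) Hence for every `ε > 0` there is `C` with `freePart N ≤ C * N ^ (1/3 + ε)` for all odd
perfect `N`.
(3) There is `c > 0` such that for every `B` there is `C` with `freePart N ≤ C * N ^ (1/3 - c/B)` for
all odd perfect `N` with all exponents at most `B`. -/
theorem result :
    (∀ N : ℕ, Odd N → N.Perfect → ∃ p, IsEulerPrime N p ∧
      4 * freePart N ∣ (p + 1) * N.divisors.card ∧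
      (Free N p → p ^ N.factorization p ∣ N.divisors.card ∧ freePart N ≤ N.divisors.card ^ 2) ∧
      4 * freePart N ^ 3 ≤ N * N.divisors.card ^ 3) ∧
    (∀ ε : ℝ, 0 < ε → ∃ C : ℝ, 0 < C ∧ ∀ N : ℕ, Odd N → N.Perfect →
      (freePart N : ℝ) ≤ C * (N : ℝ) ^ (1 / 3 + ε)) ∧
    (∃ c : ℝ, 0 < c ∧ ∀ B : ℕ, ∃ C : ℝ, 0 < C ∧ ∀ N : ℕ, Odd N → N.Perfect →
      (∀ r, N.factorization r ≤ B) → (freePart N : ℝ) ≤ C * (N : ℝ) ^ (1 / 3 - c / B)) := by
  have hpart : ∀ N, freePart N = Pool.Agent.D0H30.OPN.part N := fun N => rfl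
  refine ⟨fun N h1 h2 => ?_, ?_, ?_⟩
  · obtain ⟨p, h3⟩ := Pool.Agent.D0H30.OPN.exists_euler h1 h2
    refine ⟨p, h3, ?_, fun h4 => ⟨?_, ?_⟩, ?_⟩
    · rw [hpart]; exact Pool.Agent.D0H30.OPN.part_dvd h1 h2 h3
    · exact Pool.Agent.D0H30.OPN.euler_free h1 h2 h3 h4
    · rw [hpart]; exact Pool.Agent.D0H30.OPN.part_le_sq h1 h2 h3 h4
    · rw [hpart]; exact Pool.Agent.D0H30.OPN.cube_bound h1 h2
  · simp only [hpart]; exact Pool.Agent.D0H30.OPN.part_eps
  · simp only [hpart]; exact Pool.Agent.D0H30.OPN.part_bounded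

end Pool.Agent.Results.MP_f02ea4_nt.FreePart
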